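import Mathlib
import Pool.Agent.DL.Main

/-!
# `MP_c7a148_mp`, Q1: the defect line in dimension `d ≥ 4` below the critical inverse temperature

For every `d = D + 1 ≥ 4`, `q ≥ 2` and every `0 < β < β_c` the critical defect coupling satisfies
`1 < J_c < ∞` and the conjectured behaviour of `ξ_β (J_c) - ξ_β (J)` as `J ↓ J_c` holds:
`(J - J_c)²` for `d = 4`, `(J - J_c) / |log (J - J_c)|` for `d = 5` and `J - J_c` for `d ≥ 6`, up to
constants.

`β_c` is the supremum of the `β'` for which the homogeneous model (`J = 1`) has no spontaneous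
magnetisation: the probability that the colour at the origin is `0` in the box `[-L, L]^d` with
colour `0` outside tends to `1 / q`. The hypothesis `hc` says `β < β_c`.

`μ J n` is the probability that the colours at `0` and `n e₁` agree: the limit of the values in the
boxes `[-L, L]^d`, uniformly in the boundary condition, and the value under every Gibbs measure in
infinite volume (`IsGibbs`, the condition of Dobrushin, Lanford and Ruelle).
-/

set_option autoImplicit false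

namespace Pool.Agent.Results.MP_c7a148_mp.AllSubcritical

open MeasureTheory Filter Topology

/-- The sites of `ℤ × ℤ^D`. The defect line is the set of the sites with `x.2 = 0`. -/
abbrev Site (D : ℕ) := ℤ × (Fin D → ℤ)

/-- The `ℓ¹` distance. -/
def dist1 {D : ℕ} (x y : Site D) : ℕ := (x.1 - y.1).natAbs + ∑ i, (x.2 i - y.2 i).natAbs

/-- The coupling: `J` between two sites of the line, `1` otherwise. -/
noncomputable def coup {D : ℕ} (J : ℝ) (x y : Site D) : ℝ := if x.2 = 0 ∧ y.2 = 0 then J else 1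

/-- The box `[-L, L]^(D+1)`. -/
noncomputable def box (D L : ℕ) : Finset (Site D) :=
  Finset.Icc (-(L : ℤ)) (L : ℤ) ×ˢ Finset.Icc (fun _ => -(L : ℤ)) (fun _ => (L : ℤ))

/-- The unit vectors. -/
def dir {D : ℕ} : Option (Fin D) × Bool → Site D
  | (none, true) => (1, 0)
  | (none, false) => (-1, 0)
  | (some i, true) => (0, Pi.single i 1)
  | (some i, false) => (0, Pi.single i (-1))

/-- The nearest neighbours of `x`. -/
def nb {D : ℕ} (x : Site D) : Finset (Site D) := Finset.univ.image fun d => x + dir d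

/-- The colour at `x`: given by `s` in `Λ` and by the boundary condition `η` outside. -/
def col {D q : ℕ} {Λ : Finset (Site D)} (η : Site D → ZMod q) (s : Λ → ZMod q) (x : Site D) :
    ZMod q := if h : x ∈ Λ then s ⟨x, h⟩ else η x

/-- The sum of the couplings over the unordered nearest neighbour pairs with equal colours and at
least one site in `Λ`. -/
noncomputable def energy {D q : ℕ} (J : ℝ) (Λ : Finset (Site D)) (η : Site D → ZMod q)
    (s : Λ → ZMod q) : ℝ :=
  (1 / 2) * ∑ x ∈ Λ, ∑ y ∈ Λ,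
      (if dist1 x y = 1 ∧ col η s x = col η s y then coup J x y else 0) +
    ∑ x ∈ Λ, ∑ y ∈ nb x \ Λ, if col η s x = col η s y then coup J x y else 0

open Classical in
/-- The probability of `A` under the Potts model in `Λ` with the boundary condition `η`. -/
noncomputable def gibbs (D q : ℕ) [NeZero q] (β J : ℝ) (Λ : Finset (Site D))
    (η : Site D → ZMod q) (A : Set (Site D → ZMod q)) : ℝ :=
  (∑ s : Λ → ZMod q, if col η s ∈ A then Real.exp (β * energy J Λ η s) else 0) /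
    ∑ s : Λ → ZMod q, Real.exp (β * energy J Λ η s)

/-- `ν` is a Gibbs measure in infinite volume (the condition of Dobrushin, Lanford and Ruelle). -/
structure IsGibbs (D q : ℕ) [NeZero q] (β J : ℝ) (ν : Measure (Site D → ZMod q)) : Prop where
  prob : IsProbabilityMeasure ν
  dlr : ∀ (Λ : Finset (Site D)) (A : Set (Site D → ZMod q)), MeasurableSet A →
    ν.real A = ∫ η, gibbs D q β J Λ η A ∂ν

theorem dir_eq {D : ℕ} (d : Option (Fin D) × Bool) : dir d = Pool.Agent.SB.dir d := by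
  rcases d with ⟨_ | i, _ | _⟩ <;> rfl

theorem nb_eq {D : ℕ} (x : Site D) : nb x = Pool.Agent.SB.nb x := by
  unfold nb Pool.Agent.SB.nb
  exact congrArg (Finset.image · Finset.univ) (funext fun d => by rw [dir_eq])

theorem energy_eq {D q : ℕ} (J : ℝ) (Λ : Finset (Site D)) (η : Site D → ZMod q)
    (s : Λ → ZMod q) : energy J Λ η s = Pool.Agent.DL.enB J Λ η s := by
  unfold energy Pool.Agent.DL.enB
  simp only [nb_eq]
  rfl

theorem gibbs_eq (D q : ℕ) [NeZero q] (β J : ℝ) (Λ : Finset (Site D)) (η : Site D → ZMod q)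
    (x y : Site D) :
    gibbs D q β J Λ η {σ | σ x = σ y} = Pool.Agent.DL.sameB D q β J Λ η x y := by
  classical
  unfold gibbs Pool.Agent.DL.sameB
  simp only [energy_eq]
  congr 1

theorem gibbs_gam (D q : ℕ) [NeZero q] (β J : ℝ) (Λ : Finset (Site D)) (η : Site D → ZMod q)
    (A : Set (Site D → ZMod q)) : gibbs D q β J Λ η A = Pool.Agent.DL.gam D q β J Λ A η := by
  classical
  unfold gibbs Pool.Agent.DL.gam
  simp only [energy_eq]
  congr 1

theorem isGibbs {D q : ℕ} [NeZero q] {β J : ℝ} {ν : Measure (Site D → ZMod q)}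
    (h : IsGibbs D q β J ν) : Pool.Agent.DL.IsGibbs D q β J ν :=
  ⟨h.prob, fun Λ A hA => by rw [h.dlr Λ A hA]; simp only [gibbs_gam]⟩

theorem energy_zero {D q : ℕ} [NeZero q] (Λ : Finset (Site D)) (s : Λ → ZMod q) :
    energy 1 Λ 0 s = Pool.Agent.DLS.energyP Λ s := by
  rw [energy_eq]
  unfold Pool.Agent.DL.enB Pool.Agent.DLS.energyP Pool.Agent.SB.energy
  have h : ∀ x y : Site D, Pool.Agent.SB.coup 1 x y = 1 := by
    intro x y
    unfold Pool.Agent.SB.coup
    split_ifs <;> rfl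
  simp only [h]
  rfl

theorem gibbs_zero (D q : ℕ) [NeZero q] (β : ℝ) (L : ℕ) :
    gibbs D q β 1 (box D L) 0 {σ | σ 0 = 0} = Pool.Agent.DLS.plus D q β L := by
  classical
  unfold gibbs Pool.Agent.DLS.plus
  simp only [energy_zero]
  congr 1

/-- The behaviour of the longitudinal inverse correlation length above the critical defect coupling
in dimension `d = D + 1 ≥ 4`, for all subcritical inverse temperatures. -/
theorem result (D q : ℕ) [NeZero q] (hD : 3 ≤ D) (hq : 2 ≤ q) (β : ℝ) (hβ : 0 < β)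
    (hc : ∃ β' : ℝ, β < β' ∧
      Tendsto (fun L : ℕ => gibbs D q β' 1 (box D L) 0 {σ | σ 0 = 0}) atTop (𝓝 (1 / (q : ℝ)))) :
    ∃ (μ : ℝ → ℕ → ℝ) (ξ : ℝ → ℝ) (Jc : ℝ),
      (∀ J, 0 ≤ J → ∀ n : ℕ,
        (∀ ε, 0 < ε → ∃ L0 : ℕ, ∀ L, L0 ≤ L → ∀ η : Site D → ZMod q,
          |gibbs D q β J (box D L) η {σ | σ (0, 0) = σ ((n : ℤ), 0)} - μ J n| < ε) ∧
        ∀ ν, IsGibbs D q β J ν → ν.real {σ | σ (0, 0) = σ ((n : ℤ), 0)} = μ J n) ∧
      (∀ J, 0 ≤ J → Tendsto (fun n : ℕ => -(1 / (n : ℝ)) * Real.log (μ J n - 1 / q)) atTop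
        (𝓝 (ξ J))) ∧
      IsLUB {J : ℝ | 0 ≤ J ∧ ξ J = ξ 1} Jc ∧ 1 < Jc ∧
      ∃ c C ε : ℝ, 0 < c ∧ 0 < C ∧ 0 < ε ∧ ∀ J, Jc < J → J < Jc + ε →
        (D = 3 → c * (J - Jc) ^ 2 ≤ ξ Jc - ξ J ∧ ξ Jc - ξ J ≤ C * (J - Jc) ^ 2) ∧
        (D = 4 → c * ((J - Jc) / |Real.log (J - Jc)|) ≤ ξ Jc - ξ J ∧
          ξ Jc - ξ J ≤ C * ((J - Jc) / |Real.log (J - Jc)|)) ∧
        (5 ≤ D → c * (J - Jc) ≤ ξ Jc - ξ J ∧ ξ Jc - ξ J ≤ C * (J - Jc)) := by
  obtain ⟨β', hb, hlim⟩ := hc
  obtain ⟨μ, ξ, Jc, h1, h2⟩ := Pool.Agent.DL.main D q hD hq β hβ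
    ⟨β', hb, by simpa only [gibbs_zero] using hlim⟩
  refine ⟨μ, ξ, Jc, fun J hJ n => ⟨fun ε hε => ?_, fun ν hν => (h1 J hJ n).2 ν (isGibbs hν)⟩, h2⟩
  obtain ⟨L0, hL⟩ := (h1 J hJ n).1 ε hε
  exact ⟨L0, fun L hL' η => by rw [gibbs_eq]; exact hL L hL' η⟩

end Pool.Agent.Results.MP_c7a148_mp.AllSubcritical
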